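import Pool.Agent.Q224.KI.Fin

/-!
# Maximum regular `k`-independent set on `r`-regular graphs is NP-complete

For all `k ≥ 1` and `r ≥ max (3, k + 1)`.  For `r ≥ k + 2` the reduction is from 3SAT, through a
graph of maximum degree `k + 2` (a cycle for every variable, a triangle for every clause, and
leaves), which is made regular by two copies and blocks `K_{r+1}` minus an edge.  For `r = k + 1` a
set is `k`-independent if and only if its complement is dominating, and the reduction is from 3SAT
to domination in subcubic graphs, and from there to regular graphs by two copies and fillers.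
-/

set_option autoImplicit false

namespace Pool.Agent.Results.MP_e81a45_lc.NPComplete

open Pool.Agent.NPC Pool.Agent.H622R2 Pool.Agent.Q224.KI

/-- **NP-completeness of reg-`k`MIS on `r`-regular graphs** for all `k ≥ 1` and
`r ≥ max (3, k + 1)`: the language is in `NP`, and every language in `NP` has a polynomial-time
many-one reduction to it all of whose values are inputs (`r`-regular graphs and numbers `p ≥ 1`). -/
theorem result (k r : ℕ) (hk : 1 ≤ k) (hr : max 3 (k + 1) ≤ r) :
    InNPP (RegKMIS k r) ∧
    ∀ L : Set (List Bool), InNP L → ∃ f : List Bool → List (List Bool) × ℕ,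
      PolyTime (fun x => bits (f x)) ∧ (∀ x, IsInput r (f x)) ∧
      ∀ x, x ∈ L ↔ Yes k (f x) := by
  refine ⟨inNPP_RegKMIS k r, fun L hL => ?_⟩
  obtain ⟨f, hf, hpr, h⟩ := hard_RegKMIS hk ((le_max_left _ _).trans hr)
    ((le_max_right _ _).trans hr) L hL
  exact ⟨f, PC.toPolyTime hf, hpr, h⟩

end Pool.Agent.Results.MP_e81a45_lc.NPComplete
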